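import Pool.Agent.Lib.MP_86da66_co.Graph
import Pool.Agent.Lib.MP_86da66_co.Main

namespace Pool.Agent.Results.MP_86da66_co.MuAtMostSeven

open MP86da66

/-- Every finite connected graph with general position number at most three has mutual visibility
number at most seven. -/
theorem result {V : Type*} [Finite V] (G : SimpleGraph V) (hG : G.Connected) (h : gp G ≤ 3) :
    mu G ≤ 7 := by
  classical
  have := Fintype.ofFinite V
  have hbdd : ∀ P : Finset V → Prop, BddAbove {n | ∃ S : Finset V, P S ∧ S.card = n} := by
    intro P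
    refine ⟨Fintype.card V, ?_⟩
    rintro n ⟨S, _, rfl⟩
    exact Finset.card_le_univ S
  have h3 : ∀ S : Finset V, GeneralPosition G S → S.card ≤ 3 := fun S hS =>
    (le_csSup (hbdd _) ⟨S, hS, rfl⟩).trans h
  by_contra hmu
  have hmem : mu G ∈ {n | ∃ S : Finset V, MutualVisibility G S ∧ S.card = n} := by
    refine Nat.sSup_mem ⟨0, ∅, ?_, rfl⟩ (hbdd _)
    intro u hu
    simp at hu
  obtain ⟨S, hS, hc⟩ := hmem
  have := hG.nonempty
  exact no_conf (confOf hG h3 S hS (by omega))

end Pool.Agent.Results.MP_86da66_co.MuAtMostSeven
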